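import Pool.Graph.R_pool_sql_team_seeded_64922ed1.X247.K3.Word

/-!
2-restricted ET0L systems with bounded nondeterminism, in a normal form.
-/

set_option autoImplicit false

namespace Pool.Agent.KS6_29.EL

open Relation Pool.Agent.X247.K3 Pool.Agent.X247.K3.Prog

/-- Every table gives at most `m` words to each letter. -/
def Deg {T : Type} (m : ℕ∞) (G : ET0L T) : Prop := ∀ h c, (G.tab h c).encard ≤ m

/-- Normal form: there is a dead letter `F` (not terminal, fixed by all tables), and each table leaves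
all letters unchanged with the exception of two letters `y` and `t`, and `t` is replaced by `F`, or
erased, or left unchanged. -/
def Normal {T : Type} (G : ET0L T) : Prop :=
  ∃ F : G.V, (∀ t, G.term t ≠ F) ∧ (∀ h, G.tab h F = {[F]}) ∧
    ∀ h, ∃ y t : G.V, y ≠ t ∧ (∀ c, c ≠ y → c ≠ t → G.tab h c = {[c]}) ∧
      (G.tab h t = {[F]} ∨ G.tab h t = {[]} ∨ G.tab h t = {[t]})

section
variable {T : Type} (P : Prog T)

theorem encard_img_le (B : List P.Q) (m : ℕ∞) (hm : 1 ≤ m) (hP : ∀ q d, (P.rule q d).encard ≤ m)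
    (h : P.HH) : (img P B h).encard ≤ m := by
  rcases h with t | t | y | u
  · refine (Set.encard_le_encard (t := {st t.2.2 :: t.2.1.elim [] fun d => [te (.inl d)]})
      fun w hw => hw.2).trans ?_
    rw [Set.encard_singleton]; exact hm
  · exact (Set.encard_image_le _ _).trans (hP _ _)
  · show Set.encard {[none]} ≤ m
    rw [Set.encard_singleton]; exact hm
  · show Set.encard {([] : List P.M)} ≤ m
    rw [Set.encard_singleton]; exact hm

theorem deg_sys2 (B : List P.Q) (m : ℕ∞) (hm : 1 ≤ m) (hP : ∀ q d, (P.rule q d).encard ≤ m) :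
    Deg m (sys2 P B) := by
  intro h c
  show (tab2 P B h c).encard ≤ m
  unfold tab2
  split_ifs
  · exact encard_img_le P B m hm hP h
  · obtain ⟨w, hw⟩ := timg_eq P h
    rw [hw, Set.encard_singleton]; exact hm
  · rw [Set.encard_singleton]; exact hm
  · rw [Set.encard_singleton]; exact hm

theorem tab2_id (B : List P.Q) (h : P.HH) (c : P.M) (h1 : c ≠ ba (P.act h))
    (h2 : c ≠ te (P.act h)) : tab2 P B h c = {[c]} := by
  unfold tab2
  rw [if_neg h1, if_neg h2, ite_self]

theorem tab2_tester (B : List P.Q) (h : P.HH) : tab2 P B h (te (P.act h)) = {[none]} ∨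
    tab2 P B h (te (P.act h)) = {[]} ∨ tab2 P B h (te (P.act h)) = {[te (P.act h)]} := by
  unfold tab2
  rw [if_neg (show (te (P.act h) : P.M) ≠ ba (P.act h) from te_ne_ba), if_pos rfl]
  split_ifs with h1
  · rcases h with t | t | y | u
    · exact Or.inl rfl
    · exact Or.inl rfl
    · exact Or.inr (Or.inl rfl)
    · exact Or.inl rfl
  · exact Or.inr (Or.inr rfl)

theorem normal_sys2 (B : List P.Q) : Normal (sys2 P B) :=
  ⟨(none : P.M), fun _ => ba_ne_none, fun h => tab2_id P B h none none_ne_ba none_ne_te,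
    fun h => ⟨(ba (P.act h) : P.M), (te (P.act h) : P.M), ba_ne_te,
      fun c h1 h2 => tab2_id P B h c h1 h2, tab2_tester P B h⟩⟩

end

section
variable {T : Type} {G : ET0L T} {n : ℕ} (e : Fin n ≃ G.V)

theorem deg_prog (m : ℕ∞) (hm : 1 ≤ m) (hG : Deg m G) (q : (Sim.prog e).Q) (d : (Sim.prog e).D) :
    ((Sim.prog e).rule q d).encard ≤ m := by
  have hF : ∀ (b : Bool) (o : Option G.H) (v : G.V), (Sim.F G b o v).encard ≤ m := by
    intro b o v
    cases o with
    | some h => exact (Set.encard_image_le _ _).trans (hG h v)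
    | none =>
      refine (Set.encard_le_encard (t := {[(v, (2 : Fin 3))]}) fun w hw => hw.2).trans ?_
      rw [Set.encard_singleton]; exact hm
  show ({w | ∃ b o, q = .proc b o ∧ d.2 = par b ∧ w ∈ Sim.F G b o d.1} : Set _).encard ≤ m
  cases q with
  | proc b o =>
    refine (Set.encard_le_encard (t := Sim.F G b o d.1) ?_).trans (hF b o d.1)
    rintro w ⟨b', o', h1, -, h2⟩
    cases h1
    exact h2
  | idle b =>
    refine (Set.encard_le_encard (t := ∅) ?_).trans (by simp)
    rintro w ⟨b', o', h1, -⟩; cases h1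
  | chk b f i =>
    refine (Set.encard_le_encard (t := ∅) ?_).trans (by simp)
    rintro w ⟨b', o', h1, -⟩; cases h1
  | z =>
    refine (Set.encard_le_encard (t := ∅) ?_).trans (by simp)
    rintro w ⟨b', o', h1, -⟩; cases h1

theorem card_St_le (H : Type) (n : ℕ) [Finite H] :
    Nat.card (St H n) ≤ 4 * n + 2 * Nat.card H + 9 := by
  let φ : St H n → Bool ⊕ (Bool × Option H) ⊕ (Bool × Bool × Fin (n + 1)) ⊕ Unit := fun q =>
    match q with
    | .idle b => .inl b
    | .proc b o => .inr (.inl (b, o))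
    | .chk b f i => .inr (.inr (.inl (b, f, i)))
    | .z => .inr (.inr (.inr ()))
  have hφ : Function.Injective φ := by
    intro p q h
    cases p <;> cases q <;> simp_all [φ]
  refine (Nat.card_le_card_of_injective φ hφ).trans (le_of_eq ?_)
  rw [Nat.card_sum, Nat.card_sum, Nat.card_sum, Nat.card_prod, Nat.card_prod, Nat.card_prod,
    Finite.card_option]
  simp
  ring

end

/-- Every ET0L language is generated by a 2-restricted system in normal form, with the same bounds on
the nondeterminism and an alphabet of linear size. -/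
theorem exists_two' {T : Type} (G : ET0L T) :
    ∃ G' : ET0L T, G'.Restricted 2 ∧ G'.language = G.language ∧ Normal G' ∧
      (∀ m : ℕ∞, 1 ≤ m → Deg m G → Deg m G') ∧
      Nat.card G'.V ≤ 14 * Nat.card G.V + 4 * Nat.card G.H + 19 := by
  classical
  have := G.finV
  have := G.finH
  obtain ⟨n, ⟨e⟩⟩ := Finite.exists_equiv_fin G.V
  have hn : Nat.card G.V = n := by rw [Nat.card_congr e]; simp
  have hz : ∀ x, (Sim.prog e.symm).Reach (Sim.prog e.symm).z x →
      ∃ w : List T, x = w.map (Sim.prog e.symm).term := by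
    intro x hx
    obtain ⟨w, -, h2⟩ := Sim.reach_pinv e.symm .z x hx
    exact ⟨w, h2⟩
  have hQ := (Sim.prog e.symm).finQ
  have := Fintype.ofFinite (Sim.prog e.symm).Q
  obtain ⟨B, hB⟩ : ∃ B : List (Sim.prog e.symm).Q, ∀ p, p ∈ B :=
    ⟨(Finset.univ : Finset (Sim.prog e.symm).Q).toList, fun p => by simp⟩
  refine ⟨sys2 (Sim.prog e.symm) B, restricted2 (Sim.prog e.symm) B, ?_,
    normal_sys2 (Sim.prog e.symm) B, ?_, ?_⟩
  · exact (Set.Subset.antisymm ((Sim.prog e.symm).sound2 hB hz)
      ((Sim.prog e.symm).complete2 _)).trans (Sim.language_prog e.symm)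
  · intro m hm hG
    exact deg_sys2 _ _ m hm (deg_prog e.symm m hm hG)
  · show Nat.card (Option (((G.V × Fin 3) ⊕ (St G.H n)) ⊕ ((G.V × Fin 3) ⊕ (St G.H n)))) ≤ _
    have := finite_St G.H n
    have h1 := card_St_le G.H n
    have h2 : Nat.card (G.V × Fin 3) = 3 * n := by
      rw [Nat.card_prod, hn]; simp [mul_comm]
    rw [Finite.card_option, Nat.card_sum, Nat.card_sum, h2, hn]
    omega

end Pool.Agent.KS6_29.EL
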